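import Mathlib
import Pool.Agent.R746.ASSetoid

/-!
# MP_6cf7b2_co, Q1: 210-avoiding ascent sequences and non-3-crossing set partitions

The definitions are in `Pool/Agent/R746/AS210.lean` (`asc`, `IsAscentSeq`, `Avoids210`) and in
`Pool/Agent/R746/ASSetoid.lean` (`IsArc`, `Has3Crossing`).
-/

namespace Pool.Agent.Results.MP_6cf7b2_co.AscentPartitions

open Pool.Agent.R746.AS

/-- **Full (positive) answer to Q1.** For every `n ≥ 1` the number `a_210(n)` of the ascent
sequences of length `n` avoiding `210` is the number `p_3(n)` of the set partitions of an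
`n`-element linearly ordered set without 3-crossing. -/
theorem result (n : ℕ) (hn : 1 ≤ n) :
    Nat.card {a : Fin n → ℕ // IsAscentSeq a ∧ Avoids210 a} =
      Nat.card {r : Setoid (Fin n) // ¬ Has3Crossing r} := by
  obtain ⟨m, rfl⟩ : ∃ m, n = m + 1 := ⟨n - 1, by omega⟩
  exact main m

end Pool.Agent.Results.MP_6cf7b2_co.AscentPartitions
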